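import Mathlib

/-!
# MP_763dcb_co : independent domination versus saturation number in regular graphs

We disprove `i(G) ≤ μ*(G)` for regular graphs: there is a connected `36`-regular graph `G` on
`200` vertices with `i(G) ≥ 61` and `μ*(G) ≤ 60`.

The graph.  Take `5` Boolean variables.  Each of the `10` literals is replaced by a class of `12`
vertices, and the two classes of a variable are joined completely.  Each of the `80` clauses with
three literals on three distinct variables is one vertex, joined to the `36` vertices of its three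
literals.  Pairing the two classes of every variable gives a maximal matching with `60` edges.  A
maximal independent set is given by a partial truth assignment; if `j` variables are unset it has
`12 (5 - j) + e_3(u)` elements, where `u` has `j` entries `2` and `5 - j` entries `1`, and this is
always at least `61`.
-/

namespace Pool.Agent.Results.MP_763dcb_co.IndepDomDisproof

open Finset

/-- `S` is independent (no two of its vertices are adjacent) and dominating (every vertex outside
`S` has a neighbour in `S`). -/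
def IsIndepDom {V : Type} (G : SimpleGraph V) (S : Finset V) : Prop :=
  (∀ u ∈ S, ∀ v ∈ S, ¬ G.Adj u v) ∧ (∀ v, v ∉ S → ∃ u ∈ S, G.Adj v u)

/-- The independent domination number `i(G)` of a finite graph. -/
noncomputable def indepDomNumber {V : Type} (G : SimpleGraph V) : ℕ :=
  sInf {k | ∃ S : Finset V, IsIndepDom G S ∧ S.card = k}

/-- `M` is a matching: a set of edges of `G`, no two different ones of which share a vertex. -/
def IsMatching {V : Type} (G : SimpleGraph V) (M : Finset (Sym2 V)) : Prop :=
  (∀ e ∈ M, e ∈ G.edgeSet) ∧ (∀ e ∈ M, ∀ f ∈ M, e ≠ f → ∀ v, v ∈ e → v ∉ f)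

/-- `M` is a maximal matching: it is a matching and no proper superset of it is a matching. -/
def IsMaximalMatching {V : Type} (G : SimpleGraph V) (M : Finset (Sym2 V)) : Prop :=
  IsMatching G M ∧ ∀ M' : Finset (Sym2 V), IsMatching G M' → M ⊆ M' → M' = M

/-- The saturation number `μ*(G)`: the minimum size of a maximal matching. -/
noncomputable def saturationNumber {V : Type} (G : SimpleGraph V) : ℕ :=
  sInf {k | ∃ M : Finset (Sym2 V), IsMaximalMatching G M ∧ M.card = k}

/-! ### The graph -/

/-- The ten three-element subsets of the five variables. -/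
def tri : Fin 10 → Fin 3 → Fin 5 :=
  ![![0, 1, 2], ![0, 1, 3], ![0, 1, 4], ![0, 2, 3], ![0, 2, 4],
    ![0, 3, 4], ![1, 2, 3], ![1, 2, 4], ![1, 3, 4], ![2, 3, 4]]

/-- Clauses: a triple of variables and three signs. -/
abbrev Cl := Fin 10 × Bool × Bool × Bool

/-- `mem c i b`: the clause `c` contains the literal `(i, b)`. -/
def mem (c : Cl) (i : Fin 5) (b : Bool) : Bool :=
  (tri c.1 0 == i && c.2.1 == b) || (tri c.1 1 == i && c.2.2.1 == b) ||
    (tri c.1 2 == i && c.2.2.2 == b)

/-- The vertices. -/
abbrev Vt := (Fin 5 × Bool × Fin 12) ⊕ Cl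

/-- The adjacency. -/
def adj : Vt → Vt → Bool
  | .inl x, .inl y => x.1 == y.1 && x.2.1 != y.2.1
  | .inl x, .inr c => mem c x.1 x.2.1
  | .inr c, .inl x => mem c x.1 x.2.1
  | .inr _, .inr _ => false

/-- The graph. -/
def G : SimpleGraph Vt where
  Adj u v := adj u v = true
  symm := ⟨by
    rintro (x | c) (y | d) h
    · simp only [adj, Bool.and_eq_true, beq_iff_eq, bne_iff_ne] at h ⊢
      exact ⟨h.1.symm, fun e => h.2 e.symm⟩
    · exact h
    · exact h
    · exact h⟩
  loopless := ⟨by
    rintro (x | c) h
    · simp [adj] at h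
    · simp [adj] at h⟩

theorem cnt_lit : ∀ (i : Fin 5) (b : Bool), (∑ c : Cl, (mem c i b).toNat) = 24 := by decide

theorem cnt_cl : ∀ c : Cl, (∑ i : Fin 5, ∑ b : Bool, (mem c i b).toNat) = 3 := by decide

theorem deg_aux (v : Vt) : (∑ w : Vt, (adj v w).toNat) = 36 := by
  rw [Fintype.sum_sum_type]
  rcases v with ⟨i, b, k⟩ | c
  · have h1 : (∑ x : Fin 5 × Bool × Fin 12, (adj (.inl (i, b, k)) (.inl x)).toNat) = 12 := by
      simp only [adj, Fintype.sum_prod_type, Finset.sum_const, Finset.card_univ, Fintype.card_fin,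
        smul_eq_mul]
      revert i b
      decide
    have h2 := cnt_lit i b
    simp only [adj] at h1 ⊢
    rw [h1, h2]
  · have h1 : (∑ x : Fin 5 × Bool × Fin 12, (adj (.inr c) (.inl x)).toNat) = 36 := by
      simp only [adj, Fintype.sum_prod_type, Finset.sum_const, Finset.card_univ, Fintype.card_fin,
        smul_eq_mul, ← Finset.mul_sum]
      rw [cnt_cl c]
      rfl
    simp only [adj] at h1 ⊢
    rw [h1]
    simp

theorem regular (v : Vt) : (G.neighborSet v).ncard = 36 := by
  classical
  have : G.neighborSet v = ((univ.filter (fun w => adj v w = true) : Finset Vt) : Set Vt) := by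
    ext w
    simp [G, SimpleGraph.mem_neighborSet]
  rw [this, Set.ncard_coe_finset, Finset.card_filter, ← deg_aux v]
  apply Finset.sum_congr rfl
  intro w _
  cases adj v w <;> rfl

theorem card_vt : Fintype.card Vt = 200 := by simp [Vt, Cl]

/-! ### Connectedness -/

theorem reach (v : Vt) : G.Reachable v (.inl (0, true, 0)) := by
  have hT : ∀ k, G.Reachable (.inl (0, false, k)) (.inl (0, true, 0)) := fun k =>
    SimpleGraph.Adj.reachable (by simp [G, adj])
  have hL : ∀ i b k, G.Reachable (.inl (i, b, k)) (.inl (0, true, 0)) := by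
    intro i b k
    by_cases hi : i = 0
    · subst hi
      cases b
      · exact hT k
      · exact (SimpleGraph.Adj.reachable (G := G) (u := .inl (0, true, k))
          (v := .inl (0, false, 0)) (by simp [G, adj])).trans (hT 0)
    · have key : ∀ (i : Fin 5) (b : Bool), i ≠ 0 → ∃ c : Cl, mem c i b = true ∧
          mem c 0 true = true := by decide
      obtain ⟨c, hc1, hc2⟩ := key i b hi
      exact (SimpleGraph.Adj.reachable (G := G) (u := .inl (i, b, k)) (v := .inr c) hc1).trans
        (SimpleGraph.Adj.reachable (G := G) (u := .inr c) (v := .inl (0, true, 0)) hc2)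
  rcases v with ⟨i, b, k⟩ | c
  · exact hL i b k
  · have key : ∀ c : Cl, ∃ i b, mem c i b = true := by
      intro c
      exact ⟨tri c.1 0, c.2.1, by simp [mem]⟩
    obtain ⟨i, b, h⟩ := key c
    exact (SimpleGraph.Adj.reachable (G := G) (u := .inr c) (v := .inl (i, b, 0)) h).trans
      (hL i b 0)

theorem connected : G.Connected := by
  rw [SimpleGraph.connected_iff]
  exact ⟨fun u v => (reach u).trans (reach v).symm, ⟨.inl (0, true, 0)⟩⟩

/-! ### A maximal matching with 60 edges -/

/-- The edge of the matching with index `(i, k)`. -/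
def edge (p : Fin 5 × Fin 12) : Sym2 Vt := s(.inl (p.1, true, p.2), .inl (p.1, false, p.2))

theorem edge_inj : Function.Injective edge := by
  rintro ⟨i, k⟩ ⟨j, l⟩ h
  simp [edge] at h
  simp [h]

/-- The matching. -/
def M : Finset (Sym2 Vt) := univ.map ⟨edge, edge_inj⟩

theorem card_M : M.card = 60 := by
  simp [M]

theorem mem_edge (v : Vt) (p : Fin 5 × Fin 12) (h : v ∈ edge p) :
    ∃ b, v = .inl (p.1, b, p.2) := by
  simp only [edge, Sym2.mem_iff] at h
  rcases h with h | h
  · exact ⟨true, h⟩
  · exact ⟨false, h⟩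

theorem M_matching : IsMatching G M := by
  constructor
  · intro e he
    simp only [M, Finset.mem_map, Finset.mem_univ, true_and, Function.Embedding.coeFn_mk] at he
    obtain ⟨p, rfl⟩ := he
    simp [edge, G, adj]
  · intro e he f hf hne v hv hv'
    simp only [M, Finset.mem_map, Finset.mem_univ, true_and, Function.Embedding.coeFn_mk] at he hf
    obtain ⟨p, rfl⟩ := he
    obtain ⟨q, rfl⟩ := hf
    obtain ⟨b, hb⟩ := mem_edge v p hv
    obtain ⟨b', hb'⟩ := mem_edge v q hv'
    rw [hb] at hb'
    simp at hb'
    apply hne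
    rw [Prod.ext hb'.1 hb'.2.2]

theorem lit_mem_edge (i : Fin 5) (b : Bool) (k : Fin 12) : (.inl (i, b, k) : Vt) ∈ edge (i, k) := by
  cases b <;> simp [edge]

theorem M_maximal : IsMaximalMatching G M := by
  refine ⟨M_matching, fun M' hM' hsub => ?_⟩
  apply Finset.Subset.antisymm _ hsub
  intro e he
  by_contra hne
  -- `e` is an edge, one of its ends is a literal vertex
  have hE := hM'.1 e he
  have key : ∃ i b k, (.inl (i, b, k) : Vt) ∈ e := by
    induction e using Sym2.ind with
    | _ u v =>
      rcases u with ⟨i, b, k⟩ | c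
      · exact ⟨i, b, k, by simp⟩
      · rcases v with ⟨i, b, k⟩ | d
        · exact ⟨i, b, k, by simp⟩
        · simp [G, adj] at hE
  obtain ⟨i, b, k, h⟩ := key
  have hm : edge (i, k) ∈ M := by simp [M]
  have hne' : e ≠ edge (i, k) := by
    rintro rfl
    exact hne hm
  exact hM'.2 e he (edge (i, k)) (hsub hm) hne' _ h (lit_mem_edge i b k)

theorem sat_le : saturationNumber G ≤ 60 :=
  Nat.sInf_le ⟨M, M_maximal, card_M⟩

/-! ### Independent dominating sets have at least 61 elements -/

theorem ineq (u : Fin 5 → ℕ) (hu : ∀ i, u i = 1 ∨ u i = 2) (f : Fin 5 → ℕ)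
    (hf : ∀ i, f i + u i = 2) :
    61 ≤ 12 * (f 0 + f 1 + f 2 + f 3 + f 4) +
      (u 0 * u 1 * u 2 + u 0 * u 1 * u 3 + u 0 * u 1 * u 4 + u 0 * u 2 * u 3 + u 0 * u 2 * u 4 +
        u 0 * u 3 * u 4 + u 1 * u 2 * u 3 + u 1 * u 2 * u 4 + u 1 * u 3 * u 4 +
        u 2 * u 3 * u 4) := by
  have f0 := hf 0
  have f1 := hf 1
  have f2 := hf 2
  have f3 := hf 3
  have f4 := hf 4
  rcases hu 0 with h0 | h0 <;> rcases hu 1 with h1 | h1 <;> rcases hu 2 with h2 | h2 <;>
    rcases hu 3 with h3 | h3 <;> rcases hu 4 with h4 | h4 <;>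
    simp only [h0, h1, h2, h3, h4] at f0 f1 f2 f3 f4 ⊢ <;> omega

theorem card_ge (S : Finset Vt) (hS : IsIndepDom G S) : 61 ≤ S.card := by
  classical
  obtain ⟨hind, hdom⟩ := hS
  -- the chosen literal classes
  let f : Fin 5 → Bool → Bool := fun i b => decide ((.inl (i, b, 0) : Vt) ∈ S)
  have hf : ∀ i b k, ((.inl (i, b, k) : Vt) ∈ S ↔ f i b = true) := by
    intro i b k
    have aux : ∀ k l : Fin 12, (.inl (i, b, k) : Vt) ∈ S → (.inl (i, b, l) : Vt) ∈ S := by
      intro k l hk
      by_contra hl
      obtain ⟨u, hu, ha⟩ := hdom _ hl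
      refine hind _ hk u hu ?_
      rcases u with ⟨i', b', k'⟩ | c
      · exact ha
      · exact ha
    simp only [f, decide_eq_true_eq]
    exact ⟨aux k 0, aux 0 k⟩
  have hnot : ∀ i, ¬ (f i true = true ∧ f i false = true) := by
    rintro i ⟨h1, h2⟩
    refine hind _ ((hf i true 0).2 h1) _ ((hf i false 0).2 h2) ?_
    simp [G, adj]
  have hc : ∀ c : Cl, ((.inr c : Vt) ∈ S ↔
      ((!(f (tri c.1 0) c.2.1)) && (!(f (tri c.1 1) c.2.2.1)) && (!(f (tri c.1 2) c.2.2.2)))
        = true) := by
    intro c
    constructor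
    · intro h
      simp only [Bool.and_eq_true, Bool.not_eq_true']
      refine ⟨⟨?_, ?_⟩, ?_⟩
      all_goals
        by_contra hh
        rw [Bool.not_eq_false, ← hf _ _ 0] at hh
        refine hind _ h _ hh ?_
        simp [G, adj, mem]
    · intro h
      simp only [Bool.and_eq_true, Bool.not_eq_true'] at h
      by_contra hn
      obtain ⟨u, hu, ha⟩ := hdom _ hn
      rcases u with ⟨i, b, k⟩ | d
      · have h' := (hf i b k).1 hu
        have ha' : mem c i b = true := ha
        simp only [mem, Bool.or_eq_true, Bool.and_eq_true, beq_iff_eq] at ha'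
        rcases ha' with (⟨h1, h2⟩ | ⟨h1, h2⟩) | ⟨h1, h2⟩
        · rw [← h1, ← h2] at h'
          rw [h.1.1] at h'
          exact Bool.noConfusion h'
        · rw [← h1, ← h2] at h'
          rw [h.1.2] at h'
          exact Bool.noConfusion h'
        · rw [← h1, ← h2] at h'
          rw [h.2] at h'
          exact Bool.noConfusion h'
      · simp [G, adj] at ha
  -- count
  have hcard : S.card = ∑ v : Vt, (if v ∈ S then 1 else 0) := by
    rw [Finset.sum_ite_mem, Finset.univ_inter, Finset.sum_const, smul_eq_mul, mul_one]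
  rw [hcard, Fintype.sum_sum_type]
  have e1 : (∑ x : Fin 5 × Bool × Fin 12, (if (.inl x : Vt) ∈ S then 1 else 0)) =
      12 * ∑ i : Fin 5, ((f i true).toNat + (f i false).toNat) := by
    have : ∀ x : Fin 5 × Bool × Fin 12, (if (.inl x : Vt) ∈ S then 1 else 0) =
        (f x.1 x.2.1).toNat := by
      rintro ⟨i, b, k⟩
      rcases hfb : f i b with _ | _
      · have : ¬ ((.inl (i, b, k) : Vt) ∈ S) := by
          rw [hf, hfb]; simp
        simp [this]
      · have : ((.inl (i, b, k) : Vt) ∈ S) := by
          rw [hf, hfb]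
        simp [this]
    rw [Finset.sum_congr rfl (fun x _ => this x)]
    simp only [Fintype.sum_prod_type, Finset.sum_const, Finset.card_univ, Fintype.card_fin,
        smul_eq_mul, ← Finset.mul_sum, Fintype.sum_bool]
  have e2 : (∑ c : Cl, (if (.inr c : Vt) ∈ S then 1 else 0)) =
      ∑ t : Fin 10, (((!(f (tri t 0) true)).toNat + (!(f (tri t 0) false)).toNat) *
        ((!(f (tri t 1) true)).toNat + (!(f (tri t 1) false)).toNat) *
        ((!(f (tri t 2) true)).toNat + (!(f (tri t 2) false)).toNat)) := by
    have : ∀ c : Cl, (if (.inr c : Vt) ∈ S then 1 else 0) =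
        (!(f (tri c.1 0) c.2.1)).toNat * (!(f (tri c.1 1) c.2.2.1)).toNat *
          (!(f (tri c.1 2) c.2.2.2)).toNat := by
      intro c
      have h := hc c
      rcases h0 : f (tri c.1 0) c.2.1 with _ | _ <;> rcases h1 : f (tri c.1 1) c.2.2.1 with _ | _ <;>
        rcases h2 : f (tri c.1 2) c.2.2.2 with _ | _ <;> simp [h0, h1, h2] at h <;> simp [h]
    rw [Finset.sum_congr rfl (fun x _ => this x)]
    rw [Fintype.sum_prod_type]
    apply Finset.sum_congr rfl
    intro t _
    simp only [Fintype.sum_prod_type, Fintype.sum_bool]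
    ring
  rw [e1, e2]
  have hlast := ineq (fun i => (!(f i true)).toNat + (!(f i false)).toNat)
    (by
      intro i
      have := hnot i
      rcases h0 : f i true with _ | _ <;> rcases h1 : f i false with _ | _ <;>
        simp [h0, h1] at this ⊢)
    (fun i => (f i true).toNat + (f i false).toNat)
    (by
      intro i
      rcases h0 : f i true with _ | _ <;> rcases h1 : f i false with _ | _ <;>
        simp)
  refine hlast.trans (le_of_eq ?_)
  simp [Fin.sum_univ_succ, tri]
  ring

theorem indep_ge : 61 ≤ indepDomNumber G := by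
  unfold indepDomNumber
  have hne : {k | ∃ S : Finset Vt, IsIndepDom G S ∧ S.card = k}.Nonempty := by
    refine ⟨_, (univ.filter (fun v : Vt => v.isRight = true)), ?_, rfl⟩
    constructor
    · intro u hu v hv
      simp only [Finset.mem_filter, Finset.mem_univ, true_and] at hu hv
      rcases u with x | c
      · simp at hu
      · rcases v with y | d
        · simp at hv
        · simp [G, adj]
    · intro v hv
      rcases v with ⟨i, b, k⟩ | c
      · have key : ∀ (i : Fin 5) (b : Bool), ∃ c : Cl, mem c i b = true := by decide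
        obtain ⟨c, hc⟩ := key i b
        exact ⟨.inr c, by simp, hc⟩
      · simp at hv
  obtain ⟨S, hS, hk⟩ := Nat.sInf_mem hne
  rw [← hk]
  exact card_ge S hS

/-- **Disproof of the question.**  It is not true that every `r`-regular graph with `r ≥ 1`
satisfies `i(G) ≤ μ*(G)`; moreover there is a connected `36`-regular graph on `200` vertices with
`i(G) ≥ 61` and `μ*(G) ≤ 60`. -/
theorem result :
    (¬ ∀ r : ℕ, 1 ≤ r → ∀ (V : Type) [Fintype V] (G : SimpleGraph V),
      (∀ v, (G.neighborSet v).ncard = r) → indepDomNumber G ≤ saturationNumber G) ∧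
    ∃ (V : Type) (_ : Fintype V) (G : SimpleGraph V), Fintype.card V = 200 ∧ G.Connected ∧
      (∀ v, (G.neighborSet v).ncard = 36) ∧ 61 ≤ indepDomNumber G ∧
      saturationNumber G ≤ 60 := by
  refine ⟨fun h => ?_, Vt, inferInstance, G, card_vt, connected, regular, indep_ge, sat_le⟩
  have h1 := h 36 (by norm_num) Vt G regular
  have h2 := indep_ge
  have h3 := sat_le
  omega

end Pool.Agent.Results.MP_763dcb_co.IndepDomDisproof
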